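import Pool.Agent.ARC.StmtsP

/-! # Squad ARC, row TGC: periods and signs. -/

set_option autoImplicit false

namespace Pool.Agent.ARC.H42

open scoped BigOperators
open Pool.Agent.THS Pool.Agent.ZES
open Pool.Agent.SZG (Ch Idx gam QS WX Wf Xf Mp FF Bx Row lft Zz IM)

theorem tgc (hA : TgaStmt) (hB : TgbStmt) (hT : TouStatement) (_hQ : Pool.Agent.SZG.QsaStmt) :
    TgcStmt := by
  intro g K _ E L0 c e s T x' hQS x hx ψ τ γ hAD
  obtain ⟨ρ, hρ0, hρT, hρ⟩ := hA g K E L0 c e s T x' hQS x hx ψ τ γ hAD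
  obtain ⟨B, ε, hBs, hBa, hε2, hεm, hε0, hρB⟩ := hB (Idx g) ρ hρ0 hρ
  refine ⟨ρ 0, B, ε, hρ0 0, hBs, hBa, hε2, hεm, hε0, ?_, ?_⟩
  · intro i c
    rw [hρT, hρB i]
  intro m hm
  obtain ⟨-, -, -, t4, t5, t6⟩ := hT g τ hAD.sg
  have hγ0 : ∀ r, γ 0 r = 0 := by
    intro r
    have h := hAD.add 0 0 r
    rw [add_zero] at h
    exact left_eq_add.mp h
  have hem0 : e m 0 = 1 := by
    have h := hQS.eadd m hm 0 0
    rw [add_zero] at h
    have h' := hQS.ene m hm 0
    have h2 : e m 0 * (e m 0 - 1) = 0 := by rw [mul_sub, mul_one, ← h, sub_self]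
    rcases mul_eq_zero.mp h2 with h3 | h3
    · exact absurd h3 h'
    · exact sub_eq_zero.mp h3
  have per : ∀ i a, ρ (i + m) * Thc τ a (fun r => 2 * γ (i + m) r) =
      ψ (c m) * ψ (e m i) * (ρ i * Thc τ a (fun r => 2 * γ i r)) := by
    intro i a
    rw [← hρT, ← hρT, hQS.per m hm i a, map_mul, map_mul]
  have hz : (fun r : Fin g => 2 * γ 0 r) = (0 : Fin g → ℂ) := by
    funext r
    rw [hγ0 r, mul_zero]
    rfl
  have hlam : ∀ a, Thc τ a (fun r => 2 * γ m r) = (ψ (c m) * ρ 0 / ρ m) * Thc τ a 0 := by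
    intro a
    have h := per 0 a
    rw [zero_add, hem0, map_one, mul_one, hz] at h
    have h' := hρ0 m
    rw [div_mul_eq_mul_div, eq_div_iff h', mul_comm, h]
    ring
  have hgam : ∀ i r, 2 * γ (i + m) r = 2 * γ i r + 2 * γ m r := by
    intro i r
    rw [hAD.add]
    ring
  refine ⟨?_, ?_⟩
  · obtain ⟨N, hN, hL⟩ := hAD.tor
    obtain ⟨p, q, hpq⟩ := hL m
    obtain ⟨p', q', h'⟩ := t6 (fun r => 2 * γ m r) (ψ (c m) * ρ 0 / ρ m) N (fun r => 2 * p r)
      (fun r => 2 * q r) hN hlam (by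
        intro i
        have h : (N : ℂ) * γ m i = (p i : ℂ) + ∑ j, τ i j * (q j : ℂ) := hpq i
        calc (N : ℂ) * (2 * γ m i) = 2 * ((N : ℂ) * γ m i) := by ring
          _ = 2 * ((p i : ℂ) + ∑ j, τ i j * (q j : ℂ)) := by rw [h]
          _ = ((2 * p i : ℤ) : ℂ) + ∑ j, τ i j * ((2 * q j : ℤ) : ℂ) := by
            rw [mul_add, Finset.mul_sum]
            push_cast
            congr 1
            refine Finset.sum_congr rfl fun j _ => ?_
            ring)
    exact ⟨p', q', h'⟩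
  · intro P Q hPQ i
    obtain ⟨A, hAd⟩ : ∃ A : ℂ, A = 2 * Real.pi * Complex.I *
      ∑ i, ∑ j, (Q i : ℂ) * τ i j * (Q j : ℂ) := ⟨_, rfl⟩
    -- translation by the period
    have htr : ∀ i a, Thc τ a (fun r => 2 * γ (i + m) r) =
        Complex.exp (-A - 8 * Real.pi * Complex.I * ∑ r, (Q r : ℂ) * γ i r) *
          Thc τ a (fun r => 2 * γ i r) := by
      intro i a
      have h := t4 a (fun r => 2 * γ i r) P Q
      rw [← hAd] at h
      have e1 : (fun r => 2 * γ i r + ((P r : ℂ) + ∑ j, τ r j * (Q j : ℂ))) =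
          fun r => 2 * γ (i + m) r := by
        funext r
        rw [hgam, hPQ]
      have e2 : 4 * Real.pi * Complex.I * ∑ r, (Q r : ℂ) * (2 * γ i r) =
          8 * Real.pi * Complex.I * ∑ r, (Q r : ℂ) * γ i r := by
        have : ∑ r, (Q r : ℂ) * (2 * γ i r) = 2 * ∑ r, (Q r : ℂ) * γ i r := by
          rw [Finset.mul_sum]
          refine Finset.sum_congr rfl fun r _ => ?_
          ring
        rw [this]
        ring
      rw [e1] at h
      rw [h, e2]
    have key : ∀ i, ρ (i + m) * Complex.exp (-A - 8 * Real.pi * Complex.I *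
        ∑ r, (Q r : ℂ) * γ i r) = ψ (c m) * ψ (e m i) * ρ i := by
      intro i
      obtain ⟨a, ha⟩ := t5 (fun r => 2 * γ i r)
      have h := per i a
      rw [htr i a] at h
      apply mul_right_cancel₀ ha
      rw [mul_assoc, h]
      ring
    have key0 : ρ m * Complex.exp (-A) = ψ (c m) * ρ 0 := by
      have h := key 0
      rw [zero_add, hem0, map_one, mul_one] at h
      have h1 : ∑ r, (Q r : ℂ) * γ 0 r = 0 := by
        apply Finset.sum_eq_zero
        intro r _
        rw [hγ0, mul_zero]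
      rw [h1, mul_zero, sub_zero] at h
      exact h
    have hne : ρ m * Complex.exp (-A) * ρ i ≠ 0 :=
      mul_ne_zero (mul_ne_zero (hρ0 m) (Complex.exp_ne_zero _)) (hρ0 i)
    apply mul_right_cancel₀ hne
    have hBB : B (i + m) (i + m) = B i i + B m m + 2 * B i m := by
      rw [hBa, hBs i (i + m), hBs m (i + m), hBa, hBa, hBs m i]
      ring
    have L : ψ (e m i) * (ρ m * Complex.exp (-A) * ρ i) =
        ρ (i + m) * Complex.exp (-A - 8 * Real.pi * Complex.I *
          ∑ r, (Q r : ℂ) * γ i r) * ρ 0 := by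
      rw [key0, key i]
      ring
    rw [L, hρB (i + m), hρB m, hρB i, hBB]
    have e3 : Complex.exp (B i i + B m m + 2 * B i m) = Complex.exp (B i i) *
        Complex.exp (B m m) * Complex.exp (2 * B i m) := by
      rw [← Complex.exp_add, ← Complex.exp_add]
    have e4 : Complex.exp (-A - 8 * Real.pi * Complex.I * ∑ r, (Q r : ℂ) * γ i r) =
        Complex.exp (-A) * Complex.exp (-(8 * Real.pi * Complex.I * ∑ r, (Q r : ℂ) * γ i r)) := by
      rw [← Complex.exp_add]
      congr 1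
    have e5 : Complex.exp (2 * B i m - 8 * Real.pi * Complex.I * ∑ r, (Q r : ℂ) * γ i r) =
        Complex.exp (2 * B i m) *
          Complex.exp (-(8 * Real.pi * Complex.I * ∑ r, (Q r : ℂ) * γ i r)) := by
      rw [← Complex.exp_add]
      congr 1
    rw [e3, e4, e5]
    have h1 := hε2 i
    have h2 := hε2 m
    generalize Complex.exp (-(8 * Real.pi * Complex.I * ∑ r, (Q r : ℂ) * γ i r)) = X
    generalize Complex.exp (2 * B i m) = Y
    generalize Complex.exp (-A) = Z
    generalize Complex.exp (B i i) = U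
    generalize Complex.exp (B m m) = V
    calc ρ 0 * ε (i + m) * (U * V * Y) * (Z * X) * ρ 0
        = ρ 0 ^ 2 * ε (i + m) * U * V * Y * Z * X * 1 * 1 := by ring
      _ = ρ 0 ^ 2 * ε (i + m) * U * V * Y * Z * X * ε i ^ 2 * ε m ^ 2 := by rw [h1, h2]
      _ = _ := by ring

end Pool.Agent.ARC.H42
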