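import Pool.Agent.ARC.StmtsV

/-! # Squad ARC, row PRM: division of a period by its content. -/

set_option autoImplicit false

namespace Pool.Agent.ARC.H42

open Finset

/-- Bezout for a finite family of integers -/
theorem bez {ι : Type} [DecidableEq ι] (s : Finset ι) (f : ι → ℤ) :
    ∃ c : ι → ℤ, ∑ i ∈ s, f i * c i = s.gcd f := by
  induction s using Finset.induction_on with
  | empty => exact ⟨fun _ => 0, by simp⟩
  | @insert a s ha ih =>
    obtain ⟨c, hc⟩ := ih
    rw [Finset.gcd_insert]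
    obtain ⟨c', hc'⟩ : ∃ c' : ι → ℤ, c' = fun i => if i = a then Int.gcdA (f a) (s.gcd f) else
      c i * Int.gcdB (f a) (s.gcd f) := ⟨_, rfl⟩
    have h1 : c' a = Int.gcdA (f a) (s.gcd f) := by rw [hc']; exact if_pos rfl
    have h2 : ∀ i ∈ s, c' i = c i * Int.gcdB (f a) (s.gcd f) := by
      intro i hi
      have hne : i ≠ a := fun h => ha (h ▸ hi)
      rw [hc']
      exact if_neg hne
    refine ⟨c', ?_⟩
    rw [Finset.sum_insert ha, h1]
    have h3 : ∑ i ∈ s, f i * c' i = (s.gcd f) * Int.gcdB (f a) (s.gcd f) := by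
      calc ∑ i ∈ s, f i * c' i = ∑ i ∈ s, (f i * c i) * Int.gcdB (f a) (s.gcd f) := by
            refine Finset.sum_congr rfl fun i hi => ?_
            rw [h2 i hi]
            ring
        _ = (∑ i ∈ s, f i * c i) * Int.gcdB (f a) (s.gcd f) := by rw [Finset.sum_mul]
        _ = _ := by rw [hc]
    rw [h3, ← Int.gcd_eq_gcd_ab]
    rfl

theorem prm : PrmStmt := by
  classical
  intro g P Q hPQ
  set f : Fin g ⊕ Fin g → ℤ := Sum.elim P Q with hf
  set D : ℤ := (univ : Finset (Fin g ⊕ Fin g)).gcd f with hD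
  have hD0 : D ≠ 0 := by
    intro h
    rw [hD, Finset.gcd_eq_zero_iff] at h
    rcases hPQ with h' | h'
    · exact h' (funext fun i => h (Sum.inl i) (mem_univ _))
    · exact h' (funext fun i => h (Sum.inr i) (mem_univ _))
  obtain ⟨c, hc⟩ := bez (univ : Finset (Fin g ⊕ Fin g)) f
  have hdvd : ∀ i, (D.natAbs : ℤ) ∣ f i := fun i =>
    Int.natAbs_dvd.mpr (Finset.gcd_dvd (mem_univ i))
  choose f' hf' using hdvd
  have hd0 : (D.natAbs : ℤ) ≠ 0 := by
    rw [Int.natCast_ne_zero]
    exact Int.natAbs_ne_zero.mpr hD0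
  have hs : D.sign * D = D.natAbs := Int.sign_mul_self_eq_natAbs D
  have h1 : ∑ i, f' i * (D.sign * c i) = 1 := by
    apply mul_left_cancel₀ hd0
    rw [Finset.mul_sum, mul_one]
    calc ∑ i, (D.natAbs : ℤ) * (f' i * (D.sign * c i)) = ∑ i, D.sign * (f i * c i) := by
          refine Finset.sum_congr rfl fun i _ => ?_
          rw [hf' i]
          ring
      _ = D.sign * D := by rw [← Finset.mul_sum, hc]
      _ = D.natAbs := hs
  refine ⟨D.natAbs, fun i => f' (Sum.inl i), fun i => f' (Sum.inr i),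
    Int.natAbs_pos.mpr hD0, fun i => hf' (Sum.inl i), fun i => hf' (Sum.inr i),
    fun i => - (D.sign * c (Sum.inr i)), fun i => D.sign * c (Sum.inl i), ?_⟩
  rw [Fintype.sum_sum_type] at h1
  rw [← h1, ← Finset.sum_add_distrib]
  refine Finset.sum_congr rfl fun i _ => ?_
  ring

end Pool.Agent.ARC.H42
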